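import Pool.Agent.W325.SD.Main

set_option autoImplicit false

/-!
# Simultaneous domination of arbitrary graphs of minimum degree at least two

Any `k` graphs on the same `n` vertices, each of minimum degree at least two, have a common
dominating set with at most `(1 - 1/2 * prod_{i=4}^{3k} 2i/(2i+1)) n` vertices.  For `k = 2` this is
`269 n / 429 < 0.62705 n`.
-/

namespace Pool.Agent.Results.MP_11624f_co.GeneralPairs

/-- For every `k ≥ 1`, any `k` graphs on the same finite vertex set `V`, in each of which every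
vertex has at least two neighbours, are dominated simultaneously by a set `S` with
`|S| ≤ (1 - 1/2 ∏_{i=4}^{3k} 2i/(2i+1)) |V|`. -/
theorem result {V : Type*} [Fintype V] (k : ℕ) (hk : 1 ≤ k) (F : Fin k → SimpleGraph V)
    (hF : ∀ i v, ∃ a b : V, a ≠ b ∧ (F i).Adj v a ∧ (F i).Adj v b) :
    ∃ S : Finset V, (∀ i v, v ∈ S ∨ ∃ u ∈ S, (F i).Adj v u) ∧
      (S.card : ℚ) ≤
        (1 - 1 / 2 * ∏ i ∈ Finset.Icc 4 (3 * k), (2 * i : ℚ) / (2 * i + 1)) * Fintype.card V := by
  classical
  obtain ⟨S, hS, hc⟩ := Pool.Agent.W325.SD.sim_dom k hk F hF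
  refine ⟨S, hS, ?_⟩
  obtain ⟨m, hm⟩ : ∃ m, 3 * k = m + 3 := ⟨3 * k - 3, by omega⟩
  rw [hm] at hc ⊢
  rw [Pool.Agent.W325.SD.f_prod] at hc
  exact hc

end Pool.Agent.Results.MP_11624f_co.GeneralPairs
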